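import Pool.Agent.Y920.ETC.Stm

/-!
Project ET (helper920): valuation rings in quadratic extensions.
-/

set_option autoImplicit false

namespace Pool.Agent.Y888.ET

open Pool.Agent.Y920.ETC

section val

variable {K : Type} [Field K] (O : ValuationSubring K)

theorem lt_one_iff {x : K} (hx : x ≠ 0) : O.valuation x < 1 ↔ x⁻¹ ∉ O := by
  rw [← O.valuation_le_one_iff, map_inv₀, not_le]
  exact (one_lt_inv₀ (zero_lt_iff.2 ((Valuation.ne_zero_iff _).2 hx))).symm

theorem Sqr.sq {O : ValuationSubring K} (h : Sqr O) {x : K} (hx : O.valuation x < 1) :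
    IsSquare (1 + x) := by
  by_cases h0 : x = 0
  · rw [h0, add_zero]; exact ⟨1, by ring⟩
  · exact h.2.2 x ((O.valuation_le_one_iff x).1 hx.le) ((lt_one_iff O h0).1 hx)

theorem val_two (h : (2 : K)⁻¹ ∈ O) (h0 : (2 : K) ≠ 0) : O.valuation (2 : K) = 1 := by
  refine le_antisymm ((O.valuation_le_one_iff _).2 ?_) ?_
  · have : ((2 : ℕ) : K) ∈ O := natCast_mem O 2
    exact_mod_cast this
  · by_contra hcon
    rw [not_le] at hcon
    exact (lt_one_iff O h0).1 hcon h

end val

section ext

variable {F L : Type} [Field F] [Field L] [Algebra F L] {O : ValuationSubring F}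
  {O₁ : ValuationSubring L}

theorem over_mem (h : O₁.comap (algebraMap F L) = O) (f : F) : algebraMap F L f ∈ O₁ ↔ f ∈ O := by
  rw [← h]; exact Iff.rfl

theorem over_lt (h : O₁.comap (algebraMap F L) = O) (f : F) :
    O₁.valuation (algebraMap F L f) < 1 ↔ O.valuation f < 1 := by
  by_cases h0 : f = 0
  · subst h0
    simp
  · have h1 : algebraMap F L f ≠ 0 := by
      rw [Ne, map_eq_zero]; exact h0
    rw [lt_one_iff _ h0, lt_one_iff _ h1, ← map_inv₀, over_mem h]

theorem over_one (h : O₁.comap (algebraMap F L) = O) (f : F) (hf : O.valuation f = 1) :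
    O₁.valuation (algebraMap F L f) = 1 := by
  refine le_antisymm ((O₁.valuation_le_one_iff _).2 ((over_mem h f).2
    ((O.valuation_le_one_iff _).1 hf.le))) ?_
  by_contra hcon
  rw [not_le, over_lt h] at hcon
  exact hcon.ne hf

/-- invariance of the extensions -/
theorem inv (h : O₁.comap (algebraMap F L) = O) (hO : Sqr O) (s : L ≃ₐ[F] L)
    (hs : ∀ x, s (s x) = x) (hfix : ∀ x, s x = x → ∃ f : F, algebraMap F L f = x)
    (y : L) (hy : y ∈ O₁) : s y ∈ O₁ := by
  by_contra hcon
  have h2F : (2 : F) ≠ 0 := hO.2.1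
  have h2 : (2 : L) ≠ 0 := by
    intro h2
    apply h2F
    apply (algebraMap F L).injective
    rw [map_ofNat, h2, map_zero]
  have hsy0 : s y ≠ 0 := by
    intro h0
    rw [h0] at hcon
    exact hcon (zero_mem O₁)
  have hy0 : y ≠ 0 := by
    intro h0
    rw [h0, map_zero] at hcon
    exact hcon (zero_mem O₁)
  set p : L := y / s y with hp
  have hp0 : p ≠ 0 := div_ne_zero hy0 hsy0
  have hsp : s p = p⁻¹ := by
    rw [hp, map_div₀, hs, inv_div]
  have hvy : O₁.valuation y ≤ 1 := (O₁.valuation_le_one_iff _).2 hy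
  have hvsy : 1 < O₁.valuation (s y) := by
    rw [← not_le, O₁.valuation_le_one_iff]; exact hcon
  have hvp : O₁.valuation p < 1 := by
    rw [hp, map_div₀, div_lt_one₀ (lt_trans zero_lt_one hvsy)]
    exact lt_of_le_of_lt hvy hvsy
  have h1p : O₁.valuation (1 + p) = 1 := by
    rw [Valuation.map_add_eq_of_lt_left]
    · exact map_one _
    · rw [map_one]; exact hvp
  have h1p0 : 1 + p ≠ 0 := by
    intro h0
    rw [h0, map_zero] at h1p
    exact zero_ne_one h1p
  set u : L := 1 / (1 + p) with hu
  have hvu : O₁.valuation u = 1 := by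
    rw [hu, map_div₀, h1p, map_one, div_one]
  have hsu : s u = 1 - u := by
    rw [hu, map_div₀, map_add, map_one, hsp]
    have h3 : p + 1 ≠ 0 := by rwa [add_comm]
    field_simp
    ring
  have hvsu : O₁.valuation (1 - u) < 1 := by
    have h3 : 1 - u = p / (1 + p) := by
      rw [hu]; field_simp; ring
    rw [h3, map_div₀, h1p, div_one]
    exact hvp
  obtain ⟨n, hn⟩ := hfix (u * s u) (by rw [map_mul, hs, mul_comm])
  have hvn : O.valuation (-(4 * n)) < 1 := by
    rw [← over_lt h, map_neg, Valuation.map_neg, map_mul, map_mul, hn, hsu, map_mul, hvu, one_mul]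
    have h4 : O₁.valuation (algebraMap F L 4) ≤ 1 := by
      rw [O₁.valuation_le_one_iff, over_mem h]
      have : ((4 : ℕ) : F) ∈ O := natCast_mem O 4
      exact_mod_cast this
    refine lt_of_le_of_lt (mul_le_mul' h4 le_rfl) ?_
    rw [one_mul]; exact hvsu
  obtain ⟨c, hc⟩ := Sqr.sq hO hvn
  have h5 : (u - s u) * (u - s u) = algebraMap F L c * algebraMap F L c := by
    rw [← map_mul, ← hc, map_add, map_one, map_neg, map_mul, hn, hsu, map_ofNat]
    ring
  have h6 : s (u - s u) = u - s u := by
    rcases mul_self_eq_mul_self_iff.1 h5 with h7 | h7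
    · rw [h7, AlgEquiv.commutes]
    · rw [h7, map_neg, AlgEquiv.commutes]
  rw [map_sub, hs] at h6
  have h8 : 2 * (u - s u) = 0 := by linear_combination -h6
  have h9 : u = 1 - u := by
    rcases mul_eq_zero.1 h8 with h9 | h9
    · exact absurd h9 h2
    · rw [← hsu]; exact sub_eq_zero.1 h9
  rw [← h9, hvu] at hvsu
  exact lt_irrefl _ hvsu

/-- the nontrivial automorphism of a quadratic extension -/
theorem ex_s (F L : Type) [Field F] [Field L] [Algebra F L] [FiniteDimensional F L]
    [IsGalois F L] (h2 : Module.finrank F L = 2) : ∃ s : L ≃ₐ[F] L, (∀ x, s (s x) = x) ∧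
      ∀ x, s x = x → ∃ f : F, algebraMap F L f = x := by
  have hc := IsGalois.card_aut_eq_finrank F L
  rw [h2, Nat.card_eq_two_iff' (1 : L ≃ₐ[F] L)] at hc
  obtain ⟨s, hs1, hs⟩ := hc
  refine ⟨s, ?_, ?_⟩
  · have h3 : s * s = 1 := by
      by_contra h3
      have h4 := hs _ h3
      exact hs1 (mul_left_cancel (h4.trans (mul_one s).symm))
    intro x
    have := DFunLike.congr_fun h3 x
    simpa using this
  · intro x hx
    have := (IsGalois.mem_range_algebraMap_iff_fixed (F := F) (E := L) x).2 (by
      intro g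
      by_cases hg : g = 1
      · rw [hg]; rfl
      · rw [hs g hg]; exact hx)
    exact this

end ext

theorem t_QUAD : S_QUAD := by
  intro F L _ _ _ _ _ h2 O hO
  obtain ⟨s, hs, hfix⟩ := ex_s F L h2
  have hnorm : ∀ x : L, ∃ f : F, algebraMap F L f = x * s x := fun x =>
    hfix (x * s x) (by rw [map_mul, hs, mul_comm])
  refine ⟨?_, ?_⟩
  · have key : ∀ O₁ : ValuationSubring L, O₁.comap (algebraMap F L) = O →
        ∀ (x : L) (f : F), algebraMap F L f = x * s x → (x ∈ O₁ ↔ f ∈ O) := by
      intro O₁ h x f hf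
      have hinv := inv h hO s hs hfix
      rw [← over_mem h, hf]
      constructor
      · intro hx
        exact mul_mem hx (hinv x hx)
      · intro hx
        by_contra hcon
        have h1 : s x ∉ O₁ := by
          intro h1
          have := hinv _ h1
          rw [hs] at this
          exact hcon this
        rw [← O₁.valuation_le_one_iff, not_le] at hcon h1
        rw [← O₁.valuation_le_one_iff, map_mul] at hx
        exact absurd hx (not_le.2 (lt_of_lt_of_le hcon (le_mul_of_one_le_right' h1.le)))
    intro O₁ O₂ h1 h2'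
    ext x
    obtain ⟨f, hf⟩ := hnorm x
    rw [key O₁ h1 x f hf, key O₂ h2' x f hf]
  · intro O₁ h
    have hinv := inv h hO s hs hfix
    have h2F : (2 : F) ≠ 0 := hO.2.1
    have h2L : (2 : L) ≠ 0 := by
      intro h2
      apply h2F
      apply (algebraMap F L).injective
      rw [map_ofNat, h2, map_zero]
    have h2i : (2 : L)⁻¹ ∈ O₁ := by
      have : algebraMap F L (2 : F)⁻¹ ∈ O₁ := (over_mem h _).2 hO.1
      rwa [map_inv₀, map_ofNat] at this
    refine ⟨h2i, h2L, ?_⟩
    intro x hx hxi
    have hx0 : x ≠ 0 := by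
      intro h0
      rw [h0, inv_zero] at hxi
      exact hxi (zero_mem O₁)
    have hvs : ∀ z : L, O₁.valuation z < 1 → O₁.valuation (s z) < 1 := by
      intro z hz
      by_cases hz0 : z = 0
      · rw [hz0, map_zero, map_zero]; exact zero_lt_one
      · have h1 : s z ≠ 0 := (map_ne_zero s).2 hz0
        rw [lt_one_iff _ h1, ← map_inv₀]
        rw [lt_one_iff _ hz0] at hz
        intro h3
        have := hinv _ h3
        rw [hs] at this
        exact hz this
    have hvx : O₁.valuation x < 1 := (lt_one_iff _ hx0).2 hxi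
    have hvsx := hvs x hvx
    obtain ⟨f, hf⟩ := hnorm (1 + x)
    have hvf : O.valuation (f - 1) < 1 := by
      rw [← over_lt h, map_sub, hf, map_one, map_add, map_one]
      have e : (1 + x) * (1 + s x) - 1 = x + s x * (1 + x) := by ring
      rw [e]
      refine lt_of_le_of_lt (Valuation.map_add _ _ _) (max_lt hvx ?_)
      rw [map_mul]
      have h5 : O₁.valuation (1 + x) ≤ 1 := by
        rw [O₁.valuation_le_one_iff]
        exact add_mem (one_mem _) hx
      refine lt_of_le_of_lt (mul_le_mul' le_rfl h5) ?_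
      rw [mul_one]; exact hvsx
    obtain ⟨c₀, hc₀⟩ := Sqr.sq hO hvf
    rw [add_sub_cancel] at hc₀
    obtain ⟨c, hc, hvc⟩ : ∃ c : F, f = c * c ∧ O.valuation (c - 1) < 1 := by
      have h1 : O.valuation ((c₀ - 1) * (c₀ + 1)) < 1 := by
        have e : (c₀ - 1) * (c₀ + 1) = f - 1 := by rw [hc₀]; ring
        rw [e]; exact hvf
      rw [map_mul] at h1
      by_cases h3 : O.valuation (c₀ - 1) < 1
      · exact ⟨c₀, hc₀, h3⟩
      · refine ⟨-c₀, by rw [hc₀]; ring, ?_⟩
        have e : -c₀ - 1 = -(c₀ + 1) := by ring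
        rw [e, Valuation.map_neg]
        by_contra h4
        rw [not_lt] at h3 h4
        exact absurd h1 (not_lt.2 (le_trans h3 (le_mul_of_one_le_right' h4)))
    obtain ⟨d, hd⟩ := Sqr.sq hO hvc
    rw [add_sub_cancel] at hd
    have hvc1 : O.valuation c = 1 := by
      have e : c = 1 + (c - 1) := by ring
      rw [e, Valuation.map_add_eq_of_lt_left, map_one]
      rw [map_one]; exact hvc
    have hc0 : c ≠ 0 := by
      intro h0
      rw [h0, map_zero] at hvc1
      exact zero_ne_one hvc1
    set C : L := algebraMap F L c with hC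
    have hC0 : C ≠ 0 := by rw [hC, Ne, map_eq_zero]; exact hc0
    have hvC : O₁.valuation C = 1 := over_one h c hvc1
    have hsC : s C = C := AlgEquiv.commutes s c
    set u : L := (1 + x) / C with hu
    have hNu : u * s u = 1 := by
      have h1 : (1 + x) * s (1 + x) = C * C := by rw [← hf, hc, map_mul]
      rw [hu, map_div₀, hsC]
      field_simp
      rw [h1]; ring
    have hvu : O₁.valuation (u - 1) < 1 := by
      have e : u - 1 = (x - (C - 1)) / C := by
        rw [hu]; field_simp; ring
      rw [e, map_div₀, hvC, div_one]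
      refine lt_of_le_of_lt (Valuation.map_sub _ _ _) (max_lt hvx ?_)
      have e2 : C - 1 = algebraMap F L (c - 1) := by rw [map_sub, map_one]
      rw [e2, over_lt h]; exact hvc
    obtain ⟨g, hg⟩ := hnorm (1 + u)
    have hvg : O.valuation (g - 4) < 1 := by
      rw [← over_lt h, map_sub, hg, map_ofNat, map_add, map_one]
      have e : (1 + u) * (1 + s u) - 4 = (u - 1) + s (u - 1) := by
        rw [map_sub, map_one]
        linear_combination hNu
      rw [e]
      exact lt_of_le_of_lt (Valuation.map_add _ _ _) (max_lt hvu (hvs _ hvu))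
    have hv2 : O.valuation (2 : F) = 1 := val_two O hO.1 h2F
    have h4F : (4 : F) ≠ 0 := by
      have e : (4 : F) = 2 * 2 := by norm_num
      rw [e]; exact mul_ne_zero h2F h2F
    have hv4 : O.valuation (4 : F) = 1 := by
      have e : (4 : F) = 2 * 2 := by norm_num
      rw [e, map_mul, hv2, one_mul]
    have hvg' : O.valuation ((g - 4) / 4) < 1 := by
      rw [map_div₀, hv4, div_one]; exact hvg
    obtain ⟨e, he⟩ := Sqr.sq hO hvg'
    have hge : g = (2 * e) * (2 * e) := by
      have e1 : 1 + (g - 4) / 4 = g / 4 := by field_simp; ring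
      rw [e1, div_eq_iff h4F] at he
      rw [he]; ring
    have hg0 : g ≠ 0 := by
      intro h0
      rw [h0, zero_sub, Valuation.map_neg, hv4] at hvg
      exact lt_irrefl _ hvg
    have h2e : 2 * e ≠ 0 := by
      intro h0
      rw [hge, h0, mul_zero] at hg0
      exact hg0 rfl
    set E : L := algebraMap F L (2 * e) with hE
    have hE0 : E ≠ 0 := by rw [hE, Ne, map_eq_zero]; exact h2e
    have hkey : u * (E * E) = (1 + u) * (1 + u) := by
      have h1 : E * E = (1 + u) * s (1 + u) := by rw [← hg, hge, map_mul]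
      rw [h1, map_add, map_one]
      linear_combination (1 + u) * hNu
    refine ⟨algebraMap F L d * (1 + u) / E, ?_⟩
    have h1 : 1 + x = C * u := by rw [hu]; field_simp
    have h3 : C = algebraMap F L d * algebraMap F L d := by rw [hC, hd, map_mul]
    have h4 : u = (1 + u) * (1 + u) / (E * E) := by
      rw [eq_div_iff (mul_ne_zero hE0 hE0)]; exact hkey
    rw [h1]
    calc C * u = C * ((1 + u) * (1 + u) / (E * E)) := by rw [← h4]
      _ = _ := by rw [h3]; field_simp

end Pool.Agent.Y888.ET
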